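import Pool.Agent.H49.KT.Targets

/-!
kt_modules, row ALL (MP_5e53ef_lc).
-/

namespace Pool.Agent.H17.KT

open Turing Function Filter
open Pool.Agent.H49.KT

/-- ALL -/
theorem pf_ALL (hPOW : T_POW) : T_ALL := by
  intro U v u z r hm hm' hall hall'
  have h1 := sp_pushc v u z .all true
  rw [hall] at h1
  have h2 := sp_pushc v u (update z .all [true]) .all true
  rw [update_self, update_idem] at h2
  have h3 := hPOW U v u (update z .all [true, true]) .all .all' 2 r (by decide) (by decide)
    (by decide) (by decide) (by decide) (by rw [update_self]; rfl)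
    (by rw [update_of_ne (by decide)]; exact hall') (by rw [update_of_ne (by decide)]; exact hm)
    (by rw [update_of_ne (by decide)]; exact hm')
  rw [update_idem] at h3
  have h4 := h1.seq (h2.seq h3)
  have e : 2 * 2 ^ r = 2 ^ (r + 1) := by ring
  rw [e] at h4
  refine h4.mono ?_
  have e2 : 7 * 2 * 2 ^ r = 14 * 2 ^ r := by ring
  rw [e2]
  omega

end Pool.Agent.H17.KT
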