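import Pool.Agent.H49.KT.Targets

/-!
kt_modules, row CHO (MP_5e53ef_lc).
-/

namespace Pool.Agent.H17.KT

open Turing Function Filter
open Pool.Agent.H49.KT

/-- CHO -/
theorem pf_CHO : T_CHO := by
  intro U v u z j k h0 h1
  have hne : (Nm.v1 : Nm) ≠ .v0 := by decide
  obtain ⟨v1, u1, z1, ⟨hR1, hu1, hz1⟩, hva, hS1⟩ := sp_lp_inv (v := v) (u := u) (z := z)
    (x := .v0) (c := popn .v1) (un j) h0
    (fun i v' u' z' => Reg v v' ∧ u' = u ∧ z' = update (update z .v0 []) .v1 (un (k - i)))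
    (fun _ => 1) (by
      rintro i v' u' z' a ⟨hR, hu, hz⟩
      exact ⟨⟨hR.1, hR.2.1, hR.2.2⟩, hu, hz⟩) (by
      refine ⟨Reg.refl v, rfl, ?_⟩
      symm
      rw [update_eq_iff]
      refine ⟨?_, fun _ _ => rfl⟩
      rw [update_of_ne hne, h1]
      rfl) (by
      rintro i hi v' u' z' ⟨hR, hu, hz⟩ _
      refine ⟨_, _, _, ?_, sp_popn v' u' z' .v1⟩
      refine ⟨⟨hR.1, hR.2.1, hR.2.2⟩, hu, ?_⟩
      rw [hz, update_self, update_idem]
      congr 1
      rw [show k - (i + 1) = (k - i) - 1 from by omega]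
      simp [un])
  have hlen : (un j).length = j := by simp
  rw [hlen] at hz1 hS1
  subst hu1 hz1
  have h2 := sp_popn v1 u1 (update (update z .v0 []) .v1 (un (k - j))) .v1
  rw [update_self, update_idem] at h2
  set v2 := v1.sbg ((un (k - j)).head?.getD false) (un (k - j)).head?.isSome with hv2
  have h3 := sp_load v2 u1 (update (update z .v0 []) .v1 (un (k - j)).tail)
    (fun v => v.sb (!v.g))
  have h4 := sp_clr (v2.sb (!v2.g)) u1 (update (update z .v0 []) .v1 (un (k - j)).tail) (x := .v1)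
  rw [update_self, update_idem] at h4
  refine ⟨(v2.sb (!v2.g)).sa false, ⟨hR1.1, hR1.2.1, hR1.2.2⟩, ?_, ?_⟩
  · show (!v2.g) = decide (k ≤ j)
    have : v2.g = (un (k - j)).head?.isSome := rfl
    rw [this]
    rcases Nat.lt_or_ge j k with hjk | hjk
    · obtain ⟨w, hw⟩ : ∃ w, k - j = w + 1 := ⟨k - j - 1, by omega⟩
      rw [hw]
      simp [un, List.replicate_succ]
      omega
    · have : k - j = 0 := by omega
      rw [this]
      simp [un]
      exact hjk
  · have h5 := hS1.seq (h2.seq (h3.seq h4))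
    refine h5.mono ?_
    simp
    omega

end Pool.Agent.H17.KT
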