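import Pool.Agent.H49.KT.Targets

/-!
kt_modules, row ME (MP_5e53ef_lc).
-/

namespace Pool.Agent.H17.KT

open Turing Function Filter
open Pool.Agent.H49.KT

theorem init_k0 (tm : FinTM2) (s : List (tm.Γ tm.k₀)) : (initList tm s).stk tm.k₀ = s :=
  dif_pos (c := tm.k₀ = tm.k₀) rfl

theorem init_ne (tm : FinTM2) (s : List (tm.Γ tm.k₀)) (k : tm.K) (h : k ≠ tm.k₀) :
    (initList tm s).stk k = [] := dif_neg h

theorem halt_k1 (tm : FinTM2) (s : List (tm.Γ tm.k₁)) : (haltList tm s).stk tm.k₁ = s :=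
  dif_pos (c := tm.k₁ = tm.k₁) rfl

theorem me_init (U : BM) : initList (mod U).tm [] =
    (⟨some (some (entry (top (U := U)))), (mem₀ U, false), (mkS (mem₀ U) (E₀ U) z₀).S⟩ :
      (mod U).tm.Cfg) := by
  have e : (initList (mod U).tm []).stk = (mkS (mem₀ U) (E₀ U) z₀).S := by
    funext k
    have e1 : (mkS (mem₀ U) (E₀ U) z₀).S k = [] := by
      rcases k with k | x
      · rfl
      · rfl
    by_cases hk : k = (mod U).tm.k₀
    · subst hk
      exact (init_k0 (mod U).tm []).trans e1.symm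
    · exact (init_ne (mod U).tm [] k hk).trans e1.symm
  exact congrArg (fun S => (⟨some (some (entry (top (U := U)))), (mem₀ U, false), S⟩ :
      (mod U).tm.Cfg)) e

/-- ME -/
theorem pf_ME : T_ME := by
  intro U y t h
  obtain ⟨h⟩ := h
  have h1 := sp_popa (mem₀ U) (E₀ U) z₀ .inp
  obtain ⟨n1, _, r1⟩ := Spec.run (c := popa (U := U) .inp) trivial h1
  obtain ⟨n2, _, r2⟩ := Spec.run (c := skip (U := U)) trivial
    (sp_skip ((mem₀ U).sag ((z₀ Nm.inp).head?.getD false)
    (z₀ Nm.inp).head?.isSome) (E₀ U) (update z₀ .inp (z₀ .inp).tail))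
  have r : Run (top (U := U)) (mkS (mem₀ U) (E₀ U) z₀) _ _ := Run.seq r1 (Run.ite_false rfl r2)
  have hm := machine_run (i := .inr .inp) (o := .inr .out) (init := mem₀ U) r rfl
  have he : steps (mod U).tm.m h.steps (initList (mod U).tm []) =
      some (haltList (mod U).tm (y.map (mod U).outputAlphabet.invFun)) := h.evals_in_steps
  rw [me_init U] at he
  obtain ⟨_, e⟩ := steps_det hm rfl he rfl
  have e2 := congrArg (fun c => c.stk (mod U).tm.k₁) e
  have e3 : y.map (mod U).outputAlphabet.invFun = [] :=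
    (halt_k1 (mod U).tm (y.map (mod U).outputAlphabet.invFun)).symm.trans e2.symm
  simpa using e3

end Pool.Agent.H17.KT
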